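import Mathlib

/-!
# MP_71d0e6_al: a 6-ary Siggers term yields a 4-ary Siggers term, in every algebra

The 6-ary Siggers identity says that every compatible binary relation containing a symmetric
triangle contains a loop. Write `T` for the digraph with vertices `r, u, a, l` and arcs
`r → u → a → l → r`, `r → a`, `a → r`, and `G` for the digraph with arcs `r → e → a`, `r → a`,
`a → r`. The proof has two steps.

* `loop_of_T`: if `s` satisfies the 6-ary Siggers identity, then every compatible binary relation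
  which contains a copy of `T` contains a symmetric triangle, hence a loop. So the algebra has a
  6-ary term `f` with `f(r,r,u,a,a,l) = f(u,a,a,r,l,r)`.
* `T_of_G`: if `f` satisfies `f(r,r,u,a,a,l) = f(u,a,a,r,l,r)`, then every relation which is
  compatible with `f` and contains a copy of `G` contains a copy of `T`.

So every compatible relation which contains a copy of `G` contains a loop; this is the 4-ary Siggers
condition.
-/

set_option autoImplicit false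

universe u v

namespace Pool.Agent.W5h59.SiggersSixImpliesFour

/-- An algebra: a nonempty carrier (possibly infinite) with a family of finitary operations. -/
structure Alg where
  /-- the carrier -/
  A : Type u
  /-- the carrier is nonempty -/
  nonempty : Nonempty A
  /-- the index set of the basic operations -/
  ι : Type v
  /-- the arities of the basic operations -/
  ar : ι → ℕ
  /-- the basic operations -/
  op : ∀ i, (Fin (ar i) → A) → A

/-- The term operations of an algebra: the operations obtained by composing basic operations and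
projections. -/
inductive IsTermOp (M : Alg.{u, v}) (n : ℕ) : ((Fin n → M.A) → M.A) → Prop
  | proj (j : Fin n) : IsTermOp M n (fun x => x j)
  | comp (i : M.ι) (g : Fin (M.ar i) → (Fin n → M.A) → M.A) (hg : ∀ j, IsTermOp M n (g j)) :
      IsTermOp M n (fun x => M.op i (fun j => g j x))

/-- The algebra has a 6-ary Siggers term. -/
def HasSiggers6 (M : Alg.{u, v}) : Prop :=
  ∃ s : (Fin 6 → M.A) → M.A, IsTermOp M 6 s ∧
    ∀ x y z : M.A, s ![x, y, x, z, y, z] = s ![y, x, z, x, z, y]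

/-- The algebra has a 4-ary Siggers term. -/
def HasSiggers4 (M : Alg.{u, v}) : Prop :=
  ∃ s : (Fin 4 → M.A) → M.A, IsTermOp M 4 s ∧
    ∀ r a e : M.A, s ![r, a, r, e] = s ![a, r, e, a]

/-- `E` is compatible with the 6-ary operation `s`. -/
def Pres {B : Type u} (s : B → B → B → B → B → B → B) (E : B → B → Prop) : Prop :=
  ∀ {a₁ b₁ a₂ b₂ a₃ b₃ a₄ b₄ a₅ b₅ a₆ b₆ : B}, E a₁ b₁ → E a₂ b₂ → E a₃ b₃ → E a₄ b₄ → E a₅ b₅ →
    E a₆ b₆ → E (s a₁ a₂ a₃ a₄ a₅ a₆) (s b₁ b₂ b₃ b₄ b₅ b₆)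

/-- The first step: a relation compatible with a 6-ary Siggers operation which contains a copy of
the digraph `T` contains a loop. -/
theorem loop_of_T {B : Type u} (s : B → B → B → B → B → B → B)
    (hs : ∀ x y z, s x y x z y z = s y x z x z y) (E : B → B → Prop) (hE : Pres s E)
    {r u a l : B} (hru : E r u) (hra : E r a) (hua : E u a) (har : E a r) (hal : E a l)
    (hlr : E l r) : ∃ c, E c c := by
  obtain ⟨x0, hx0⟩ : ∃ z, z = s r a a a a r := ⟨_, rfl⟩
  have hx0_1 : x0 = s a r a a r a := hx0.trans (hs a r a).symm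
  obtain ⟨x1, hx1⟩ : ∃ z, z = s r u r l u l := ⟨_, rfl⟩
  have e_x0_x1 : E x0 x1 := by
    rw [hx0_1, hx1]
    exact hE har hru har hal hru hal
  obtain ⟨x2, hx2⟩ : ∃ z, z = s u r a r a r := ⟨_, rfl⟩
  obtain ⟨x3, hx3⟩ : ∃ z, z = s a u l a r a := ⟨_, rfl⟩
  have e_x2_x3 : E x2 x3 := by
    rw [hx2, hx3]
    exact hE hua hru hal hra har hra
  obtain ⟨x4, hx4⟩ : ∃ z, z = s r a r r a r := ⟨_, rfl⟩
  obtain ⟨x5, hx5⟩ : ∃ z, z = s u r a u l u := ⟨_, rfl⟩
  have e_x4_x5 : E x4 x5 := by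
    rw [hx4, hx5]
    exact hE hru har hra hru hal hru
  obtain ⟨x6, hx6⟩ : ∃ z, z = s u a u r a r := ⟨_, rfl⟩
  have hx6_1 : x6 = s a u r u r a := hx6.trans (hs u a r)
  have e_x2_x6 : E x2 x6 := by
    rw [hx2, hx6_1]
    exact hE hua hru har hru har hra
  have hx4_1 : x4 = s a r r r r a := hx4.trans (hs r a r)
  have e_x4_x0 : E x4 x0 := by
    rw [hx4_1, hx0]
    exact hE har hra hra hra hra har
  have e_x0_x4 : E x0 x4 := by
    rw [hx0_1, hx4]
    exact hE har hra har har hra har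
  obtain ⟨x7, hx7⟩ : ∃ z, z = s x0 x2 x4 x2 x4 x0 := ⟨_, rfl⟩
  obtain ⟨x8, hx8⟩ : ∃ z, z = s x1 x3 x5 x6 x0 x4 := ⟨_, rfl⟩
  have e_x7_x8 : E x7 x8 := by
    rw [hx7, hx8]
    exact hE e_x0_x1 e_x2_x3 e_x4_x5 e_x2_x6 e_x4_x0 e_x0_x4
  obtain ⟨x9, hx9⟩ : ∃ z, z = s r l a l a r := ⟨_, rfl⟩
  have hx9_1 : x9 = s l r l a r a := hx9.trans (hs l r a).symm
  obtain ⟨x10, hx10⟩ : ∃ z, z = s r a r l u r := ⟨_, rfl⟩
  have e_x9_x10 : E x9 x10 := by
    rw [hx9_1, hx10]
    exact hE hlr hra hlr hal hru har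
  obtain ⟨x11, hx11⟩ : ∃ z, z = s r u r a u a := ⟨_, rfl⟩
  obtain ⟨x12, hx12⟩ : ∃ z, z = s a a r a r a := ⟨_, rfl⟩
  have hx12_1 : x12 = s a a a r a r := hx12.trans (hs a a r).symm
  have e_x11_x12 : E x11 x12 := by
    rw [hx11, hx12_1]
    exact hE hra hua hra har hua har
  obtain ⟨x13, hx13⟩ : ∃ z, z = s r l u r a r := ⟨_, rfl⟩
  obtain ⟨x14, hx14⟩ : ∃ z, z = s a r a u l a := ⟨_, rfl⟩
  have e_x13_x14 : E x13 x14 := by
    rw [hx13, hx14]
    exact hE hra hlr hua hru hal hra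
  obtain ⟨x15, hx15⟩ : ∃ z, z = s r u r a r l := ⟨_, rfl⟩
  have e_x15_x12 : E x15 x12 := by
    rw [hx15, hx12_1]
    exact hE hra hua hra har hra hlr
  obtain ⟨x16, hx16⟩ : ∃ z, z = s u l u r a u := ⟨_, rfl⟩
  have e_x16_x14 : E x16 x14 := by
    rw [hx16, hx14]
    exact hE hua hlr hua hru hal hua
  obtain ⟨x17, hx17⟩ : ∃ z, z = s l u l a r l := ⟨_, rfl⟩
  have e_x17_x10 : E x17 x10 := by
    rw [hx17, hx10]
    exact hE hlr hua hlr hal hru hlr
  obtain ⟨x18, hx18⟩ : ∃ z, z = s x9 x11 x13 x15 x16 x17 := ⟨_, rfl⟩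
  obtain ⟨x19, hx19⟩ : ∃ z, z = s x10 x12 x14 x12 x14 x10 := ⟨_, rfl⟩
  have e_x18_x19 : E x18 x19 := by
    rw [hx18, hx19]
    exact hE e_x9_x10 e_x11_x12 e_x13_x14 e_x15_x12 e_x16_x14 e_x17_x10
  obtain ⟨x20, hx20⟩ : ∃ z, z = s r a u a u r := ⟨_, rfl⟩
  obtain ⟨x21, hx21⟩ : ∃ z, z = s a l a r a u := ⟨_, rfl⟩
  have e_x20_x21 : E x20 x21 := by
    rw [hx20, hx21]
    exact hE hra hal hua har hua hru
  obtain ⟨x22, hx22⟩ : ∃ z, z = s a l a r a r := ⟨_, rfl⟩
  obtain ⟨x23, hx23⟩ : ∃ z, z = s r l u l u r := ⟨_, rfl⟩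
  have hx23_1 : x23 = s l r l u r u := hx23.trans (hs l r u).symm
  have e_x22_x23 : E x22 x23 := by
    rw [hx22, hx23_1]
    exact hE hal hlr hal hru har hru
  obtain ⟨x24, hx24⟩ : ∃ z, z = s r a r l a l := ⟨_, rfl⟩
  obtain ⟨x25, hx25⟩ : ∃ z, z = s a l a r l r := ⟨_, rfl⟩
  have e_x24_x25 : E x24 x25 := by
    rw [hx24, hx25]
    exact hE hra hal hra hlr hal hlr
  obtain ⟨x26, hx26⟩ : ∃ z, z = s l r l u l a := ⟨_, rfl⟩
  have e_x22_x26 : E x22 x26 := by
    rw [hx22, hx26]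
    exact hE hal hlr hal hru hal hra
  obtain ⟨x27, hx27⟩ : ∃ z, z = s r a r a r r := ⟨_, rfl⟩
  have hx27_1 : x27 = s a r a r r r := hx27.trans (hs a r r).symm
  have e_x24_x27 : E x24 x27 := by
    rw [hx24, hx27_1]
    exact hE hra har hra hlr har hlr
  obtain ⟨x28, hx28⟩ : ∃ z, z = s r a r a a a := ⟨_, rfl⟩
  have hx28_1 : x28 = s a r a r a a := hx28.trans (hs r a a)
  have e_x20_x28 : E x20 x28 := by
    rw [hx20, hx28_1]
    exact hE hra har hua har hua hra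
  obtain ⟨x29, hx29⟩ : ∃ z, z = s x20 x22 x24 x22 x24 x20 := ⟨_, rfl⟩
  obtain ⟨x30, hx30⟩ : ∃ z, z = s x21 x23 x25 x26 x27 x28 := ⟨_, rfl⟩
  have e_x29_x30 : E x29 x30 := by
    rw [hx29, hx30]
    exact hE e_x20_x21 e_x22_x23 e_x24_x25 e_x22_x26 e_x24_x27 e_x20_x28
  have e_x1_x12 : E x1 x12 := by
    rw [hx1, hx12_1]
    exact hE hra hua hra hlr hua hlr
  have e_x3_x10 : E x3 x10 := by
    rw [hx3, hx10]
    exact hE har hua hlr hal hru har
  have e_x5_x12 : E x5 x12 := by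
    rw [hx5, hx12]
    exact hE hua hra har hua hlr hua
  have e_x6_x14 : E x6 x14 := by
    rw [hx6, hx14]
    exact hE hua har hua hru hal hra
  have e_x0_x10 : E x0 x10 := by
    rw [hx0_1, hx10]
    exact hE har hra har hal hru har
  have e_x4_x14 : E x4 x14 := by
    rw [hx4, hx14]
    exact hE hra har hra hru hal hra
  have hx19_1 : x19 = s x12 x10 x12 x14 x10 x14 := hx19.trans (hs x12 x10 x14).symm
  have e_x8_x19 : E x8 x19 := by
    rw [hx8, hx19_1]
    exact hE e_x1_x12 e_x3_x10 e_x5_x12 e_x6_x14 e_x0_x10 e_x4_x14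
  obtain ⟨x31, hx31⟩ : ∃ z, z = s r a u a u l := ⟨_, rfl⟩
  have e_x31_x2 : E x31 x2 := by
    rw [hx31, hx2]
    exact hE hru har hua har hua hlr
  obtain ⟨x32, hx32⟩ : ∃ z, z = s u l u r a r := ⟨_, rfl⟩
  have e_x32_x0 : E x32 x0 := by
    rw [hx32, hx0_1]
    exact hE hua hlr hua hra har hra
  obtain ⟨x33, hx33⟩ : ∃ z, z = s r a r l u l := ⟨_, rfl⟩
  have e_x33_x2 : E x33 x2 := by
    rw [hx33, hx2]
    exact hE hru har hra hlr hua hlr
  obtain ⟨x34, hx34⟩ : ∃ z, z = s u l a l a r := ⟨_, rfl⟩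
  have e_x34_x4 : E x34 x4 := by
    rw [hx34, hx4_1]
    exact hE hua hlr har hlr har hra
  obtain ⟨x35, hx35⟩ : ∃ z, z = s x31 x32 x33 x34 x4 x0 := ⟨_, rfl⟩
  have hx7_1 : x7 = s x2 x0 x2 x4 x0 x4 := hx7.trans (hs x2 x0 x4).symm
  have e_x35_x7 : E x35 x7 := by
    rw [hx35, hx7_1]
    exact hE e_x31_x2 e_x32_x0 e_x33_x2 e_x34_x4 e_x4_x0 e_x0_x4
  have e_x6_x31 : E x6 x31 := by
    rw [hx6_1, hx31]
    exact hE har hua hru hua hru hal
  have e_x33_x32 : E x33 x32 := by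
    rw [hx33, hx32]
    exact hE hru hal hru hlr hua hlr
  have e_x3_x33 : E x3 x33 := by
    rw [hx3, hx33]
    exact hE har hua hlr hal hru hal
  have e_x31_x34 : E x31 x34 := by
    rw [hx31, hx34]
    exact hE hru hal hua hal hua hlr
  obtain ⟨x36, hx36⟩ : ∃ z, z = s r a l l a r := ⟨_, rfl⟩
  have e_x36_x4 : E x36 x4 := by
    rw [hx36, hx4_1]
    exact hE hra har hlr hlr har hra
  obtain ⟨x37, hx37⟩ : ∃ z, z = s u l u u l u := ⟨_, rfl⟩
  have e_x37_x0 : E x37 x0 := by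
    rw [hx37, hx0_1]
    exact hE hua hlr hua hua hlr hua
  obtain ⟨x38, hx38⟩ : ∃ z, z = s x6 x33 x3 x31 x36 x37 := ⟨_, rfl⟩
  have e_x38_x35 : E x38 x35 := by
    rw [hx38, hx35]
    exact hE e_x6_x31 e_x33_x32 e_x3_x33 e_x31_x34 e_x36_x4 e_x37_x0
  obtain ⟨x39, hx39⟩ : ∃ z, z = s l r r u r a := ⟨_, rfl⟩
  have e_x39_x20 : E x39 x20 := by
    rw [hx39, hx20]
    exact hE hlr hra hru hua hru har
  obtain ⟨x40, hx40⟩ : ∃ z, z = s r a r a u a := ⟨_, rfl⟩
  have e_x40_x22 : E x40 x22 := by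
    rw [hx40, hx22]
    exact hE hra hal hra har hua har
  have hx24_1 : x24 = s a r l r l a := hx24.trans (hs r a l)
  have e_x9_x24 : E x9 x24 := by
    rw [hx9, hx24_1]
    exact hE hra hlr hal hlr hal hra
  obtain ⟨x41, hx41⟩ : ∃ z, z = s r a r a r l := ⟨_, rfl⟩
  have e_x41_x22 : E x41 x22 := by
    rw [hx41, hx22]
    exact hE hra hal hra har hra hlr
  obtain ⟨x42, hx42⟩ : ∃ z, z = s u l a l a u := ⟨_, rfl⟩
  have e_x42_x24 : E x42 x24 := by
    rw [hx42, hx24_1]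
    exact hE hua hlr hal hlr hal hua
  obtain ⟨x43, hx43⟩ : ∃ z, z = s u l u r l r := ⟨_, rfl⟩
  have hx20_1 : x20 = s a r a u r u := hx20.trans (hs a r u).symm
  have e_x43_x20 : E x43 x20 := by
    rw [hx43, hx20_1]
    exact hE hua hlr hua hru hlr hru
  obtain ⟨x44, hx44⟩ : ∃ z, z = s x39 x40 x9 x41 x42 x43 := ⟨_, rfl⟩
  have e_x44_x29 : E x44 x29 := by
    rw [hx44, hx29]
    exact hE e_x39_x20 e_x40_x22 e_x9_x24 e_x41_x22 e_x42_x24 e_x43_x20
  have e_x31_x22 : E x31 x22 := by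
    rw [hx31, hx22]
    exact hE hra hal hua har hua hlr
  have e_x32_x20 : E x32 x20 := by
    rw [hx32, hx20_1]
    exact hE hua hlr hua hru har hru
  have e_x33_x22 : E x33 x22 := by
    rw [hx33, hx22]
    exact hE hra hal hra hlr hua hlr
  have e_x34_x24 : E x34 x24 := by
    rw [hx34, hx24_1]
    exact hE hua hlr hal hlr hal hra
  have e_x4_x20 : E x4 x20 := by
    rw [hx4_1, hx20]
    exact hE har hra hru hra hru har
  have e_x0_x24 : E x0 x24 := by
    rw [hx0_1, hx24]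
    exact hE har hra har hal hra hal
  have hx29_1 : x29 = s x22 x20 x22 x24 x20 x24 := hx29.trans (hs x22 x20 x24).symm
  have e_x35_x29 : E x35 x29 := by
    rw [hx35, hx29_1]
    exact hE e_x31_x22 e_x32_x20 e_x33_x22 e_x34_x24 e_x4_x20 e_x0_x24
  have e_x0_x33 : E x0 x33 := by
    rw [hx0_1, hx33]
    exact hE har hra har hal hru hal
  have e_x4_x31 : E x4 x31 := by
    rw [hx4_1, hx31]
    exact hE har hra hru hra hru hal
  have e_x0_x36 : E x0 x36 := by
    rw [hx0_1, hx36]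
    exact hE har hra hal hal hra har
  have hx37_1 : x37 = s l u u u u l := hx37.trans (hs u l u)
  have e_x4_x37 : E x4 x37 := by
    rw [hx4_1, hx37_1]
    exact hE hal hru hru hru hru hal
  have e_x7_x38 : E x7 x38 := by
    rw [hx7_1, hx38]
    exact hE e_x2_x6 e_x0_x33 e_x2_x3 e_x4_x31 e_x0_x36 e_x4_x37
  have e_x21_x39 : E x21 x39 := by
    rw [hx21, hx39]
    exact hE hal hlr har hru har hua
  have e_x23_x40 : E x23 x40 := by
    rw [hx23_1, hx40]
    exact hE hlr hra hlr hua hru hua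
  have hx25_1 : x25 = s l a r a r l := hx25.trans (hs a l r)
  have e_x25_x9 : E x25 x9 := by
    rw [hx25_1, hx9]
    exact hE hlr hal hra hal hra hlr
  have e_x26_x41 : E x26 x41 := by
    rw [hx26, hx41]
    exact hE hlr hra hlr hua hlr hal
  have hx42_1 : x42 = s l u l a u a := hx42.trans (hs l u a).symm
  have e_x27_x42 : E x27 x42 := by
    rw [hx27_1, hx42_1]
    exact hE hal hru hal hra hru hra
  have hx43_1 : x43 = s l u r u r l := hx43.trans (hs u l r)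
  have e_x28_x43 : E x28 x43 := by
    rw [hx28_1, hx43_1]
    exact hE hal hru har hru har hal
  have e_x30_x44 : E x30 x44 := by
    rw [hx30, hx44]
    exact hE e_x21_x39 e_x23_x40 e_x25_x9 e_x26_x41 e_x27_x42 e_x28_x43
  have e_x39_x31 : E x39 x31 := by
    rw [hx39, hx31]
    exact hE hlr hra hru hua hru hal
  have e_x40_x32 : E x40 x32 := by
    rw [hx40, hx32]
    exact hE hru hal hru har hua har
  have e_x9_x33 : E x9 x33 := by
    rw [hx9_1, hx33]
    exact hE hlr hra hlr hal hru hal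
  have e_x41_x34 : E x41 x34 := by
    rw [hx41, hx34]
    exact hE hru hal hra hal hra hlr
  have e_x42_x4 : E x42 x4 := by
    rw [hx42, hx4_1]
    exact hE hua hlr har hlr har hua
  have e_x43_x0 : E x43 x0 := by
    rw [hx43, hx0_1]
    exact hE hua hlr hua hra hlr hra
  have e_x44_x35 : E x44 x35 := by
    rw [hx44, hx35]
    exact hE e_x39_x31 e_x40_x32 e_x9_x33 e_x41_x34 e_x42_x4 e_x43_x0
  have e_x22_x39 : E x22 x39 := by
    rw [hx22, hx39]
    exact hE hal hlr har hru har hra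
  have e_x20_x40 : E x20 x40 := by
    rw [hx20_1, hx40]
    exact hE har hra har hua hru hua
  have e_x22_x9 : E x22 x9 := by
    rw [hx22, hx9_1]
    exact hE hal hlr hal hra har hra
  have e_x24_x41 : E x24 x41 := by
    rw [hx24_1, hx41]
    exact hE har hra hlr hra hlr hal
  have e_x20_x42 : E x20 x42 := by
    rw [hx20, hx42]
    exact hE hru hal hua hal hua hru
  have e_x24_x43 : E x24 x43 := by
    rw [hx24, hx43]
    exact hE hru hal hru hlr hal hlr
  have e_x29_x44 : E x29 x44 := by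
    rw [hx29_1, hx44]
    exact hE e_x22_x39 e_x20_x40 e_x22_x9 e_x24_x41 e_x20_x42 e_x24_x43
  have e_x21_x9 : E x21 x9 := by
    rw [hx21, hx9_1]
    exact hE hal hlr hal hra har hua
  have e_x23_x11 : E x23 x11 := by
    rw [hx23_1, hx11]
    exact hE hlr hru hlr hua hru hua
  have e_x25_x13 : E x25 x13 := by
    rw [hx25_1, hx13]
    exact hE hlr hal hru har hra hlr
  have e_x26_x15 : E x26 x15 := by
    rw [hx26, hx15]
    exact hE hlr hru hlr hua hlr hal
  have e_x27_x16 : E x27 x16 := by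
    rw [hx27, hx16]
    exact hE hru hal hru har hra hru
  have e_x28_x17 : E x28 x17 := by
    rw [hx28_1, hx17]
    exact hE hal hru hal hra har hal
  have e_x30_x18 : E x30 x18 := by
    rw [hx30, hx18]
    exact hE e_x21_x9 e_x23_x11 e_x25_x13 e_x26_x15 e_x27_x16 e_x28_x17
  have hx1_1 : x1 = s u r l r l u := hx1.trans (hs r u l)
  have e_x9_x1 : E x9 x1 := by
    rw [hx9, hx1_1]
    exact hE hru hlr hal hlr hal hru
  have hx11_1 : x11 = s u r a r a u := hx11.trans (hs r u a)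
  have e_x11_x3 : E x11 x3 := by
    rw [hx11_1, hx3]
    exact hE hua hru hal hra har hua
  have e_x13_x5 : E x13 x5 := by
    rw [hx13, hx5]
    exact hE hru hlr hua hru hal hru
  have e_x15_x6 : E x15 x6 := by
    rw [hx15, hx6]
    exact hE hru hua hru har hra hlr
  have e_x16_x0 : E x16 x0 := by
    rw [hx16, hx0_1]
    exact hE hua hlr hua hra har hua
  have e_x17_x4 : E x17 x4 := by
    rw [hx17, hx4]
    exact hE hlr hua hlr har hra hlr
  have e_x18_x8 : E x18 x8 := by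
    rw [hx18, hx8]
    exact hE e_x9_x1 e_x11_x3 e_x13_x5 e_x15_x6 e_x16_x0 e_x17_x4
  have e_x6_x0 : E x6 x0 := by
    rw [hx6_1, hx0]
    exact hE har hua hra hua hra har
  have e_x3_x4 : E x3 x4 := by
    rw [hx3, hx4]
    exact hE har hua hlr har hra har
  have e_x38_x7 : E x38 x7 := by
    rw [hx38, hx7]
    exact hE e_x6_x0 e_x33_x2 e_x3_x4 e_x31_x2 e_x36_x4 e_x37_x0
  have e_x10_x21 : E x10 x21 := by
    rw [hx10, hx21]
    exact hE hra hal hra hlr hua hru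
  have e_x12_x23 : E x12 x23 := by
    rw [hx12, hx23]
    exact hE har hal hru hal hru har
  have e_x14_x25 : E x14 x25 := by
    rw [hx14, hx25_1]
    exact hE hal hra har hua hlr hal
  have e_x12_x26 : E x12 x26 := by
    rw [hx12_1, hx26]
    exact hE hal har hal hru hal hra
  have e_x14_x27 : E x14 x27 := by
    rw [hx14, hx27]
    exact hE har hra har hua hlr har
  have e_x10_x28 : E x10 x28 := by
    rw [hx10, hx28_1]
    exact hE hra har hra hlr hua hra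
  have e_x19_x30 : E x19 x30 := by
    rw [hx19, hx30]
    exact hE e_x10_x21 e_x12_x23 e_x14_x25 e_x12_x26 e_x14_x27 e_x10_x28
  have e_x12_x9 : E x12 x9 := by
    rw [hx12, hx9]
    exact hE har hal hra hal hra har
  have e_x10_x11 : E x10 x11 := by
    rw [hx10, hx11_1]
    exact hE hru har hra hlr hua hru
  have e_x12_x13 : E x12 x13 := by
    rw [hx12, hx13]
    exact hE har hal hru har hra har
  have e_x14_x15 : E x14 x15 := by
    rw [hx14, hx15]
    exact hE har hru har hua hlr hal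
  have e_x10_x16 : E x10 x16 := by
    rw [hx10, hx16]
    exact hE hru hal hru hlr hua hru
  have e_x14_x17 : E x14 x17 := by
    rw [hx14, hx17]
    exact hE hal hru hal hua hlr hal
  have e_x19_x18 : E x19 x18 := by
    rw [hx19_1, hx18]
    exact hE e_x12_x9 e_x10_x11 e_x12_x13 e_x14_x15 e_x10_x16 e_x14_x17
  have e_x1_x6 : E x1 x6 := by
    rw [hx1, hx6]
    exact hE hru hua hru hlr hua hlr
  have e_x5_x3 : E x5 x3 := by
    rw [hx5, hx3]
    exact hE hua hru hal hua hlr hua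
  have e_x8_x38 : E x8 x38 := by
    rw [hx8, hx38]
    exact hE e_x1_x6 e_x3_x33 e_x5_x3 e_x6_x31 e_x0_x36 e_x4_x37
  obtain ⟨p, hp⟩ : ∃ w, w = s x8 x30 x8 x35 x30 x35 := ⟨_, rfl⟩
  have hp' : p = s x30 x8 x35 x8 x35 x30 := hp.trans (hs x8 x30 x35)
  obtain ⟨q, hq⟩ : ∃ w, w = s x19 x18 x38 x7 x44 x29 := ⟨_, rfl⟩
  obtain ⟨t, ht⟩ : ∃ w, w = s x18 x19 x7 x38 x29 x44 := ⟨_, rfl⟩
  have hpq : E p q := by
    rw [hp, hq]
    exact hE e_x8_x19 e_x30_x18 e_x8_x38 e_x35_x7 e_x30_x44 e_x35_x29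
  have hqp : E q p := by
    rw [hq, hp']
    exact hE e_x19_x30 e_x18_x8 e_x38_x35 e_x7_x8 e_x44_x35 e_x29_x30
  have hpt : E p t := by
    rw [hp', ht]
    exact hE e_x30_x18 e_x8_x19 e_x35_x7 e_x8_x38 e_x35_x29 e_x30_x44
  have htp : E t p := by
    rw [ht, hp]
    exact hE e_x18_x8 e_x19_x30 e_x7_x8 e_x38_x35 e_x29_x30 e_x44_x35
  have hqt : E q t := by
    rw [hq, ht]
    exact hE e_x19_x18 e_x18_x19 e_x38_x7 e_x7_x38 e_x44_x29 e_x29_x44
  have htq : E t q := by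
    rw [ht, hq]
    exact hE e_x18_x19 e_x19_x18 e_x7_x38 e_x38_x7 e_x29_x44 e_x44_x29
  refine ⟨s p q p t q t, ?_⟩
  have h := hE hpq hqp hpt htp hqt htq
  rwa [← hs p q t] at h

/-- The second step: a relation compatible with a 6-ary operation which satisfies the identity of
the digraph `T`, and which contains a copy of `G`, contains a copy of `T`. -/
theorem T_of_G {B : Type u} (f : B → B → B → B → B → B → B)
    (hf : ∀ r u a l, f r r u a a l = f u a a r l r) (E : B → B → Prop) (hE : Pres f E)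
    {r a e : B} (hra : E r a) (har : E a r) (hre : E r e) (hea : E e a) :
    ∃ r' u' a' l', E r' u' ∧ E r' a' ∧ E u' a' ∧ E a' r' ∧ E a' l' ∧ E l' r' := by
  obtain ⟨x0, hx0⟩ : ∃ z, z = f e e r a r a := ⟨_, rfl⟩
  obtain ⟨x1, hx1⟩ : ∃ z, z = f a a e r e r := ⟨_, rfl⟩
  have e_x0_x1 : E x0 x1 := by
    rw [hx0, hx1]
    exact hE hea hea hre har hre har
  obtain ⟨x2, hx2⟩ : ∃ z, z = f e r r a r a := ⟨_, rfl⟩
  have e_x2_x1 : E x2 x1 := by
    rw [hx2, hx1]
    exact hE hea hra hre har hre har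
  obtain ⟨x3, hx3⟩ : ∃ z, z = f r r r a a e := ⟨_, rfl⟩
  have hx3_1 : x3 = f r a a r e r := hx3.trans (hf r r a e)
  obtain ⟨x4, hx4⟩ : ∃ z, z = f e r r a a e := ⟨_, rfl⟩
  have e_x3_x4 : E x3 x4 := by
    rw [hx3_1, hx4]
    exact hE hre har har hra hea hre
  obtain ⟨x5, hx5⟩ : ∃ z, z = f r a a e e r := ⟨_, rfl⟩
  have e_x5_x4 : E x5 x4 := by
    rw [hx5, hx4]
    exact hE hre har har hea hea hre
  obtain ⟨x6, hx6⟩ : ∃ z, z = f x3 x3 x0 x2 x2 x5 := ⟨_, rfl⟩
  have hx6_1 : x6 = f x0 x2 x2 x3 x5 x3 := hx6.trans (hf x3 x0 x2 x5)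
  obtain ⟨x7, hx7⟩ : ∃ z, z = f x4 x4 x1 x1 x1 x4 := ⟨_, rfl⟩
  have hx7_1 : x7 = f x1 x1 x1 x4 x4 x4 := hx7.trans (hf x4 x1 x1 x4)
  have e_x6_x7 : E x6 x7 := by
    rw [hx6_1, hx7_1]
    exact hE e_x0_x1 e_x2_x1 e_x2_x1 e_x3_x4 e_x5_x4 e_x3_x4
  obtain ⟨x8, hx8⟩ : ∃ z, z = f r r a a a e := ⟨_, rfl⟩
  have hx8_1 : x8 = f a a a r e r := hx8.trans (hf r a a e)
  have e_x0_x8 : E x0 x8 := by
    rw [hx0, hx8_1]
    exact hE hea hea hra har hre har
  have e_x2_x8 : E x2 x8 := by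
    rw [hx2, hx8_1]
    exact hE hea hra hra har hre har
  have hx2_1 : x2 = f a a e r r r := hx2.trans (hf a e r r).symm
  obtain ⟨x9, hx9⟩ : ∃ z, z = f r r a e a e := ⟨_, rfl⟩
  have e_x2_x9 : E x2 x9 := by
    rw [hx2_1, hx9]
    exact hE har har hea hre hra hre
  obtain ⟨x10, hx10⟩ : ∃ z, z = f e r r a a a := ⟨_, rfl⟩
  have hx10_1 : x10 = f a a e r r a := hx10.trans (hf a e r a).symm
  have e_x3_x10 : E x3 x10 := by
    rw [hx3, hx10_1]
    exact hE hra hra hre har har hea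
  have e_x5_x10 : E x5 x10 := by
    rw [hx5, hx10]
    exact hE hre har har hea hea hra
  obtain ⟨x11, hx11⟩ : ∃ z, z = f a e e r r a := ⟨_, rfl⟩
  have e_x3_x11 : E x3 x11 := by
    rw [hx3, hx11]
    exact hE hra hre hre har har hea
  obtain ⟨x12, hx12⟩ : ∃ z, z = f x9 x10 x10 x8 x11 x8 := ⟨_, rfl⟩
  have hx12_1 : x12 = f x8 x8 x9 x10 x10 x11 := hx12.trans (hf x8 x9 x10 x11).symm
  have e_x6_x12 : E x6 x12 := by
    rw [hx6_1, hx12_1]
    exact hE e_x0_x8 e_x2_x8 e_x2_x9 e_x3_x10 e_x5_x10 e_x3_x11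
  have e_x1_x8 : E x1 x8 := by
    rw [hx1, hx8]
    exact hE har har hea hra hea hre
  have e_x1_x9 : E x1 x9 := by
    rw [hx1, hx9]
    exact hE har har hea hre hea hre
  have e_x4_x10 : E x4 x10 := by
    rw [hx4, hx10_1]
    exact hE hea hra hre har har hea
  have e_x4_x11 : E x4 x11 := by
    rw [hx4, hx11]
    exact hE hea hre hre har har hea
  have e_x7_x12 : E x7 x12 := by
    rw [hx7_1, hx12_1]
    exact hE e_x1_x8 e_x1_x8 e_x1_x9 e_x4_x10 e_x4_x10 e_x4_x11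
  have e_x8_x3 : E x8 x3 := by
    rw [hx8_1, hx3]
    exact hE har har har hra hea hre
  have e_x9_x0 : E x9 x0 := by
    rw [hx9, hx0]
    exact hE hre hre har hea har hea
  have e_x10_x2 : E x10 x2 := by
    rw [hx10, hx2_1]
    exact hE hea hra hre har har har
  have e_x11_x5 : E x11 x5 := by
    rw [hx11, hx5]
    exact hE har hea hea hre hre har
  have e_x12_x6 : E x12 x6 := by
    rw [hx12_1, hx6]
    exact hE e_x8_x3 e_x8_x3 e_x9_x0 e_x10_x2 e_x10_x2 e_x11_x5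
  obtain ⟨x13, hx13⟩ : ∃ z, z = f a e r a r a := ⟨_, rfl⟩
  have e_x9_x13 : E x9 x13 := by
    rw [hx9, hx13]
    exact hE hra hre har hea har hea
  obtain ⟨x14, hx14⟩ : ∃ z, z = f r r a a a r := ⟨_, rfl⟩
  have e_x10_x14 : E x10 x14 := by
    rw [hx10_1, hx14]
    exact hE har har hea hra hra har
  obtain ⟨x15, hx15⟩ : ∃ z, z = f r r a e a r := ⟨_, rfl⟩
  have e_x10_x15 : E x10 x15 := by
    rw [hx10_1, hx15]
    exact hE har har hea hre hra har
  obtain ⟨x16, hx16⟩ : ∃ z, z = f r r r a a a := ⟨_, rfl⟩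
  have e_x8_x16 : E x8 x16 := by
    rw [hx8_1, hx16]
    exact hE har har har hra hea hra
  obtain ⟨x17, hx17⟩ : ∃ z, z = f r a a e a r := ⟨_, rfl⟩
  have e_x11_x17 : E x11 x17 := by
    rw [hx11, hx17]
    exact hE har hea hea hre hra har
  obtain ⟨x18, hx18⟩ : ∃ z, z = f a e r r r a := ⟨_, rfl⟩
  have e_x8_x18 : E x8 x18 := by
    rw [hx8, hx18]
    exact hE hra hre har har har hea
  obtain ⟨x19, hx19⟩ : ∃ z, z = f x13 x14 x15 x16 x17 x18 := ⟨_, rfl⟩
  have e_x12_x19 : E x12 x19 := by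
    rw [hx12, hx19]
    exact hE e_x9_x13 e_x10_x14 e_x10_x15 e_x8_x16 e_x11_x17 e_x8_x18
  have e_x13_x3 : E x13 x3 := by
    rw [hx13, hx3_1]
    exact hE har hea hra har hre har
  have hx14_1 : x14 = f a a a r r r := hx14.trans (hf r a a r)
  have hx14_2 : x14 = f a r r a r a := hx14_1.trans (hf a a r r)
  have e_x14_x3 : E x14 x3 := by
    rw [hx14_2, hx3_1]
    exact hE har hra hra har hre har
  have e_x15_x0 : E x15 x0 := by
    rw [hx15, hx0]
    exact hE hre hre har hea har hra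
  have e_x16_x2 : E x16 x2 := by
    rw [hx16, hx2_1]
    exact hE hra hra hre har har har
  have e_x17_x2 : E x17 x2 := by
    rw [hx17, hx2]
    exact hE hre har har hea har hra
  have e_x18_x5 : E x18 x5 := by
    rw [hx18, hx5]
    exact hE har hea hra hre hre har
  have e_x19_x6 : E x19 x6 := by
    rw [hx19, hx6]
    exact hE e_x13_x3 e_x14_x3 e_x15_x0 e_x16_x2 e_x17_x2 e_x18_x5
  exact ⟨x6, x7, x12, x19, e_x6_x7, e_x6_x12, e_x7_x12, e_x12_x6, e_x12_x19, e_x19_x6⟩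

/-- Terms in a 6-ary operation symbol and `n` variables. -/
inductive Tm (n : ℕ) : Type
  | var : Fin n → Tm n
  | app : Tm n → Tm n → Tm n → Tm n → Tm n → Tm n → Tm n

/-- Evaluation of a term. -/
def Tm.eval {n : ℕ} {B : Type u} (s : B → B → B → B → B → B → B) (x : Fin n → B) : Tm n → B
  | .var i => x i
  | .app t₁ t₂ t₃ t₄ t₅ t₆ => s (t₁.eval s x) (t₂.eval s x) (t₃.eval s x) (t₄.eval s x)
      (t₅.eval s x) (t₆.eval s x)

theorem Tm.eval_rel {n : ℕ} {B : Type u} {s : B → B → B → B → B → B → B} {E : B → B → Prop}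
    (hE : Pres s E) {x y : Fin n → B} (h : ∀ i, E (x i) (y i)) (t : Tm n) :
    E (t.eval s x) (t.eval s y) := by
  induction t with
  | var i => exact h i
  | app t₁ t₂ t₃ t₄ t₅ t₆ h₁ h₂ h₃ h₄ h₅ h₆ => exact hE h₁ h₂ h₃ h₄ h₅ h₆

/-- If every compatible relation containing a copy of a digraph (with `m` arcs on `k` vertices)
contains a loop, then there is a term which satisfies the identity of this digraph. -/
theorem term_of_loop {m k : ℕ} (tl hd : Fin m → Fin k)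
    (H : ∀ (B : Type u) (s : B → B → B → B → B → B → B)
      (_ : ∀ x y z, s x y x z y z = s y x z x z y) (E : B → B → Prop) (_ : Pres s E)
      (g : Fin k → B), (∀ i, E (g (tl i)) (g (hd i))) → ∃ c, E c c)
    (A : Type u) (s : A → A → A → A → A → A → A) (hs : ∀ x y z, s x y x z y z = s y x z x z y) :
    ∃ t : Tm m, ∀ v : Fin k → A, t.eval s (fun i => v (tl i)) = t.eval s (fun i => v (hd i)) := by
  obtain ⟨c, t, h₁, h₂⟩ := H ((Fin k → A) → A)
    (fun f₁ f₂ f₃ f₄ f₅ f₆ v => s (f₁ v) (f₂ v) (f₃ v) (f₄ v) (f₅ v) (f₆ v))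
    (fun x y z => funext fun v => hs (x v) (y v) (z v))
    (fun f g => ∃ t : Tm m, (∀ v, f v = t.eval s (fun i => v (tl i))) ∧
      (∀ v, g v = t.eval s (fun i => v (hd i))))
    (by
      rintro a₁ b₁ a₂ b₂ a₃ b₃ a₄ b₄ a₅ b₅ a₆ b₆ ⟨t₁, p₁, q₁⟩ ⟨t₂, p₂, q₂⟩ ⟨t₃, p₃, q₃⟩
        ⟨t₄, p₄, q₄⟩ ⟨t₅, p₅, q₅⟩ ⟨t₆, p₆, q₆⟩
      refine ⟨.app t₁ t₂ t₃ t₄ t₅ t₆, fun v => ?_, fun v => ?_⟩
      · simp only [Tm.eval, p₁ v, p₂ v, p₃ v, p₄ v, p₅ v, p₆ v]
      · simp only [Tm.eval, q₁ v, q₂ v, q₃ v, q₄ v, q₅ v, q₆ v])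
    (fun j v => v j)
    (fun i => ⟨.var i, fun _ => rfl, fun _ => rfl⟩)
  exact ⟨t, fun v => (h₁ v).symm.trans (h₂ v)⟩

/-- A 6-ary Siggers operation generates an operation satisfying the identity of the digraph `T`. -/
theorem exists_T_term (A : Type u) (s : A → A → A → A → A → A → A)
    (hs : ∀ x y z, s x y x z y z = s y x z x z y) :
    ∃ t : Tm 6, ∀ r u a l : A,
      t.eval s ![r, r, u, a, a, l] = t.eval s ![u, a, a, r, l, r] := by
  obtain ⟨t, ht⟩ := term_of_loop (m := 6) (k := 4) ![0, 0, 1, 2, 2, 3] ![1, 2, 2, 0, 3, 0]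
    (fun B s hs E hE g h => loop_of_T s hs E hE (h 0) (h 1) (h 2) (h 3) (h 4) (h 5)) A s hs
  refine ⟨t, fun r u a l => ?_⟩
  have h := ht ![r, u, a, l]
  have h₁ : (fun i => (![r, u, a, l] : Fin 4 → A) ((![0, 0, 1, 2, 2, 3] : Fin 6 → Fin 4) i)) =
      ![r, r, u, a, a, l] := by
    funext i; fin_cases i <;> rfl
  have h₂ : (fun i => (![r, u, a, l] : Fin 4 → A) ((![1, 2, 2, 0, 3, 0] : Fin 6 → Fin 4) i)) =
      ![u, a, a, r, l, r] := by
    funext i; fin_cases i <;> rfl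
  rwa [h₁, h₂] at h

/-- Every relation compatible with a 6-ary Siggers operation which contains a copy of `G` contains
a loop. -/
theorem loop_of_G {B : Type u} (s : B → B → B → B → B → B → B)
    (hs : ∀ x y z, s x y x z y z = s y x z x z y) (E : B → B → Prop) (hE : Pres s E)
    {r a e : B} (hra : E r a) (har : E a r) (hre : E r e) (hea : E e a) : ∃ c, E c c := by
  obtain ⟨t, ht⟩ := exists_T_term B s hs
  have hpres : Pres (fun x₁ x₂ x₃ x₄ x₅ x₆ => t.eval s ![x₁, x₂, x₃, x₄, x₅, x₆]) E := by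
    intro a₁ b₁ a₂ b₂ a₃ b₃ a₄ b₄ a₅ b₅ a₆ b₆ h₁ h₂ h₃ h₄ h₅ h₆
    refine Tm.eval_rel hE (fun i => ?_) t
    fin_cases i <;> assumption
  obtain ⟨r', u', a', l', h₁, h₂, h₃, h₄, h₅, h₆⟩ :=
    T_of_G (fun x₁ x₂ x₃ x₄ x₅ x₆ => t.eval s ![x₁, x₂, x₃, x₄, x₅, x₆]) ht E hpres hra har hre hea
  exact loop_of_T s hs E hE h₁ h₂ h₃ h₄ h₅ h₆

/-- A 6-ary Siggers operation generates a 4-ary Siggers operation. -/
theorem exists_four (A : Type u) (s : A → A → A → A → A → A → A)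
    (hs : ∀ x y z, s x y x z y z = s y x z x z y) :
    ∃ t : Tm 4, ∀ r a e : A, t.eval s ![r, a, r, e] = t.eval s ![a, r, e, a] := by
  obtain ⟨t, ht⟩ := term_of_loop (m := 4) (k := 3) ![0, 1, 0, 2] ![1, 0, 2, 1]
    (fun B s hs E hE g h => loop_of_G s hs E hE (h 0) (h 1) (h 2) (h 3)) A s hs
  refine ⟨t, fun r a e => ?_⟩
  have h := ht ![r, a, e]
  have h₁ : (fun i => (![r, a, e] : Fin 3 → A) ((![0, 1, 0, 2] : Fin 4 → Fin 3) i)) =
      ![r, a, r, e] := by
    funext i; fin_cases i <;> rfl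
  have h₂ : (fun i => (![r, a, e] : Fin 3 → A) ((![1, 0, 2, 1] : Fin 4 → Fin 3) i)) =
      ![a, r, e, a] := by
    funext i; fin_cases i <;> rfl
  rwa [h₁, h₂] at h

/-- Term operations are closed under composition. -/
theorem IsTermOp.comp' {M : Alg.{u, v}} {m n : ℕ} {f : (Fin m → M.A) → M.A}
    (hf : IsTermOp M m f) (g : Fin m → (Fin n → M.A) → M.A) (hg : ∀ j, IsTermOp M n (g j)) :
    IsTermOp M n (fun x => f (fun j => g j x)) := by
  induction hf with
  | proj j => exact hg j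
  | comp i h _ ih => exact IsTermOp.comp i (fun j x => h j (fun k => g k x)) ih

theorem isTermOp_eval {M : Alg.{u, v}} {s : (Fin 6 → M.A) → M.A} (hs : IsTermOp M 6 s) {n : ℕ}
    (t : Tm n) :
    IsTermOp M n (fun x => t.eval (fun x₁ x₂ x₃ x₄ x₅ x₆ => s ![x₁, x₂, x₃, x₄, x₅, x₆]) x) := by
  induction t with
  | var i => exact IsTermOp.proj i
  | app t₁ t₂ t₃ t₄ t₅ t₆ h₁ h₂ h₃ h₄ h₅ h₆ =>
    have h := hs.comp' (n := n)
      (fun j x => (![t₁, t₂, t₃, t₄, t₅, t₆] j).eval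
        (fun x₁ x₂ x₃ x₄ x₅ x₆ => s ![x₁, x₂, x₃, x₄, x₅, x₆]) x)
      (fun j => by fin_cases j <;> assumption)
    convert h using 2 with x
    simp only [Tm.eval]
    congr 1
    funext j
    fin_cases j <;> rfl

/-- **Full answer to Q1**, for arbitrary algebras: an algebra (possibly infinite, idempotent or not)
has a 6-ary Siggers term if and only if it has a 4-ary Siggers term. -/
theorem result (M : Alg.{u, v}) : HasSiggers6 M ↔ HasSiggers4 M := by
  constructor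
  · rintro ⟨s, hs, h⟩
    obtain ⟨t, ht⟩ := exists_four M.A (fun x₁ x₂ x₃ x₄ x₅ x₆ => s ![x₁, x₂, x₃, x₄, x₅, x₆]) h
    exact ⟨_, isTermOp_eval hs t, ht⟩
  · rintro ⟨s, hs, h⟩
    refine ⟨fun x => s (fun j => x ((![0, 1, 2, 5] : Fin 4 → Fin 6) j)),
      hs.comp' _ (fun j => IsTermOp.proj _), fun x y z => ?_⟩
    have h' := h x y z
    have h₁ : (fun j => (![x, y, x, z, y, z] : Fin 6 → M.A) ((![0, 1, 2, 5] : Fin 4 → Fin 6) j)) =
        ![x, y, x, z] := by
      funext i; fin_cases i <;> rfl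
    have h₂ : (fun j => (![y, x, z, x, z, y] : Fin 6 → M.A) ((![0, 1, 2, 5] : Fin 4 → Fin 6) j)) =
        ![y, x, z, y] := by
      funext i; fin_cases i <;> rfl
    rwa [← h₁, ← h₂] at h'

end Pool.Agent.W5h59.SiggersSixImpliesFour
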